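import Pool.Agent.H75.CO.Flt
import Pool.Agent.H75.CO.Enu

/-!
# [H10 CO Inj] THEOREM LG, CORE (C4): windows are injective

The levels of a weak window are blocks (`Fb_bk`) with the bound `X0 = 2 R Ln (a_r + 1)`, the positions `p l i`, `|i| ≤ c`, are at
distance at most `c + 1` from `l Γ` (`En.pos`), and `Γ = Ln (be_r - 2)` is much larger. By `flat_inj` the balls
`Φ l (p l (i l))` are determined by `f i`, and different left endpoints have different balls.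
-/

set_option autoImplicit false

namespace Pool.Agent.H10.CO

open Pool.Agent.H75.CO Pool.Agent.H54.TT Pool.Agent.H98.RH Matrix
open scoped Pointwise

/-! ### the scales -/

theorem Ln_pos {A L1 : ℕ} (hA : 1 ≤ A) (hL : 1 ≤ L1) (i : ℕ) : 1 ≤ Ln A L1 i :=
  Nat.mul_pos (pow_pos hA i) hL

theorem Ln_mono {A L1 : ℕ} (hA : 1 ≤ A) {i j : ℕ} (h : i ≤ j) : Ln A L1 i ≤ Ln A L1 j :=
  Nat.mul_le_mul_right _ (pow_le_pow_right₀ hA h)

theorem Ln_succ (A L1 i : ℕ) : Ln A L1 (i + 1) = A * Ln A L1 i := by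
  simp only [Ln, pow_succ]; ring

theorem Ln_step {A L1 : ℕ} (hA : 1 ≤ A) {i j : ℕ} (h : i + 1 ≤ j) : A * Ln A L1 i ≤ Ln A L1 j := by
  rw [← Ln_succ]; exact Ln_mono hA h

theorem le_Ln {A L1 : ℕ} (hA : 1 ≤ A) (i : ℕ) : L1 ≤ Ln A L1 i :=
  Nat.le_mul_of_pos_left _ (pow_pos hA i)

theorem AA_ge (n R : ℕ) : 1000 * (R + 1) ≤ AA n R := by
  have h2 : 1 ≤ (n + 2) * 4 ^ (n + 2) := Nat.mul_pos (by omega) (by positivity)
  have h3 : AA n R = (n + 2) * 4 ^ (n + 2) * (10 ^ 6 * (R + 1)) := by simp only [AA]; ring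
  rw [h3]
  calc 1000 * (R + 1) ≤ 1 * (10 ^ 6 * (R + 1)) := by rw [one_mul]; exact Nat.mul_le_mul_right _ (by norm_num)
    _ ≤ (n + 2) * 4 ^ (n + 2) * (10 ^ 6 * (R + 1)) := Nat.mul_le_mul_right _ h2

theorem AA_pos (n R : ℕ) : 1 ≤ AA n R := le_trans (by omega) (AA_ge n R)

theorem rg_a_mono {n N r : ℕ} {d : ℕ → Dat n N} (hd : Rg r d) {l k : ℕ} (h : l ≤ k) (hk : k ≤ r) :
    ((d l).a : ℕ) ≤ (d k).a := by
  induction k, h using Nat.le_induction with
  | base => exact le_rfl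
  | succ k h ih =>
    have h1 := ih (by omega)
    have h2 := (hd.c2 k (by omega)).1
    have h3 := (hd.c1 (k + 1) hk).1
    omega

theorem md_pos (n j : ℕ) : 0 < md n j := by
  have : ∀ j, 0 < cc n j := fun j => by unfold cc; positivity
  unfold md
  have h1 := this j
  have h2 := this (j + 1)
  linarith

variable {K : Type} [Field K] {v : K → ℤ} {hv : IsDV v} {π : Kˣ} {n : ℕ} {G : Type} [Group G]
  {ρ : G →* GL (Fin n) K} {S : Set G} {R : ℕ}

theorem bk_weaken {M W W1 : Lt hv n} {Φ : ℝ → Lt hv n} {X0 X1 : ℝ} (hπ : v π = 1) (h : Bk π M W W1 Φ X0)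
    (hX : X0 ≤ X1) : Bk π M W W1 Φ X1 :=
  ⟨h.nm, h.le, h.ge, h.big, fun t => (h.gen t).trans (sup_le_sup_right (inf_le_inf_left _ (bl_mono hπ M (by linarith))) _)⟩

/-- the lower subspaces of a tower -/
theorem tw_sub {A L1 N r : ℕ} {θ : ℝ} {d : ℕ → Dat n N} {g : G} {B : ℝ → Lt hv n} {W : ℕ → Lt hv n}
    (h : Tw π ρ S A L1 θ r d g B W) {l : ℕ} (hl : l ≤ r) : IsSub (W (l + 1)) := by
  rcases Nat.lt_or_ge l r with h1 | h1
  · exact h.sub _ h1
  · rw [le_antisymm hl h1, h.bot]; exact isSub_bot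

/-- the levels of a tower are blocks -/
theorem tw_bk (hs : Stp hv π ρ S R) {A L1 N r : ℕ} {θ : ℝ} {d : ℕ → Dat n N} {g : G} {B : ℝ → Lt hv n} (hB : Hn B)
    {W : ℕ → Lt hv n} (h : Tw π ρ S A L1 θ r d g B W) {l : ℕ} (hl : l ≤ r) :
    Bk π (La hv ρ g) (W l) (W (l + 1)) (Sp π ρ S A L1 (d l) g B (W l) (W (l + 1)))
      (2 * R * Ln A L1 ((d l).a + 1)) :=
  Fb_bk hs (h.sub l hl) (tw_sub h hl) (h.lv l hl).le (kap_lp hs hB (h.sub l hl) (h.ne l hl) _ g)
    (by unfold ep; positivity) g _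

/-- the positions are discrete and periodic -/
theorem bk_per_le {M W W1 : Lt hv n} {Φ : ℝ → Lt hv n} {X0 : ℝ} (h : Bk π M W W1 Φ X0) (c : ℝ) (x : ℝ) :
    x + 1 ∈ Le Φ c ↔ x ∈ Le Φ c := by
  have := le_add_int h.nm (c := c) (t := x) 1
  simpa using this

/-- different left endpoints have different balls -/
theorem le_inj {Φ : ℝ → Lt hv n} {c x y : ℝ} (hx : x ∈ Le Φ c) (hy : y ∈ Le Φ c) (h : Φ x = Φ y) : x = y := by
  rcases lt_trichotomy x y with h1 | h1 | h1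
  · exact absurd h (hy.2 x h1)
  · exact h1
  · exact absurd h.symm (hx.2 y h1)

/-- the size of `Γ` -/
theorem Gm_ge {N r : ℕ} {d : ℕ → Dat n N} (hd : Rg r d) {c : ℕ} (hc : 1 ≤ c) (R : ℕ) :
    (1000 * (R + 1) * Ln (AA n R) c ((d r).a + 1) : ℝ) ≤ Gm (AA n R) c r d := by
  have h1 := hd.c1 r le_rfl
  have h2 : AA n R * Ln (AA n R) c ((d r).a + 1) ≤ Ln (AA n R) c ((d r).be - 2) :=
    Ln_step (AA_pos n R) (by omega)
  have h3 := (Nat.mul_le_mul_right (Ln (AA n R) c ((d r).a + 1)) (AA_ge n R)).trans h2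
  unfold Gm
  exact_mod_cast h3

/-- (C4) windows are injective -/
theorem weak_inj' (hn : 0 < n) (hs : Stp hv π ρ S R) {c : ℕ} (hc : 1 ≤ c) {r : ℕ} {d : ℕ → Dat n (NN n)} (hd : Rg r d)
    {g : G} {B : ℝ → Lt hv n} (hB : Hn B) {f : (Fin (r + 1) → ℤ) → Lt hv n} (hf : Wk π ρ S (AA n R) c r d g B f)
    {i i' : Fin (r + 1) → ℤ} (hi : ∀ l, |i l| ≤ c) (hi' : ∀ l, |i' l| ≤ c) (h : f i = f i') : i = i' := by
  obtain ⟨W, p, hT, hW⟩ := hf
  have hπ := hs.unif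
  set X : ℕ := Ln (AA n R) c ((d r).a + 1) with hX
  have hcX : c ≤ X := le_Ln (AA_pos n R) _
  have hb : ∀ l, l ≤ r → Bk π (La hv ρ g) (W l) (W (l + 1)) (Sp π ρ S (AA n R) c (d l) g B (W l) (W (l + 1)))
      (2 * R * X) := by
    intro l hl
    refine bk_weaken hπ (tw_bk hs hB hT hl) ?_
    have h1 : Ln (AA n R) c ((d l).a + 1) ≤ X := Ln_mono (AA_pos n R) (by have := rg_a_mono hd hl le_rfl; omega)
    have h2 : (Ln (AA n R) c ((d l).a + 1) : ℝ) ≤ X := by exact_mod_cast h1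
    exact mul_le_mul_of_nonneg_left h2 (by positivity)
  have hpos : ∀ l, l ≤ r → ∀ j : ℤ, |j| ≤ c → |p l j - l * Gm (AA n R) c r d| ≤ (c : ℝ) + 1 := by
    intro l hl j hj
    refine ((hW.en l hl).pos (bk_per_le (hb l hl) _) j).trans ?_
    have : (|(j : ℝ)| : ℝ) ≤ c := by exact_mod_cast hj
    linarith
  have hΓ := Gm_ge hd hc R
  have hG : 2 * (((c : ℝ) + 1) + 2 * R * X + 2) ≤ Gm (AA n R) c r d := by
    refine le_trans ?_ hΓ
    have h1 : (c : ℝ) ≤ X := by exact_mod_cast hcX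
    have h2 : (1 : ℝ) ≤ c := by exact_mod_cast hc
    have h3 : (0 : ℝ) ≤ R := by positivity
    rw [← hX]
    nlinarith [mul_nonneg h3 (by linarith : (0 : ℝ) ≤ X)]
  have key : ∀ i i' : Fin (r + 1) → ℤ, (∀ l, |i l| ≤ c) → (∀ l, |i' l| ≤ c) → f i ≤ f i' → ∀ l : Fin (r + 1),
      Sp π ρ S (AA n R) c (d l) g B (W l) (W (l + 1)) (p l (i l)) ≤
        Sp π ρ S (AA n R) c (d l) g B (W l) (W (l + 1)) (p l (i' l)) := by
    intro i i' hi hi' hle l
    let q : (Fin (r + 1) → ℤ) → ℕ → ℝ := fun i l => if h : l < r + 1 then p l (i ⟨l, h⟩) else l * Gm (AA n R) c r d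
    have hq : ∀ (i : Fin (r + 1) → ℤ) (l : Fin (r + 1)), q i l = p l (i l) := by
      intro i l
      simp only [q]
      rw [dif_pos l.2]
    have hqb : ∀ i : Fin (r + 1) → ℤ, (∀ l, |i l| ≤ c) → ∀ l, l ≤ r → |q i l - l * Gm (AA n R) c r d| ≤ (c : ℝ) + 1 := by
      intro i hi l hl
      have h1 := hq i ⟨l, by omega⟩
      simp only at h1
      rw [h1]
      exact hpos l hl _ (hi _)
    have hle' := hle
    rw [hW.eq, hW.eq] at hle'
    have := flat_inj (π := π) hπ (r := r) (M := La hv ρ g) (W := W)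
      (Φ := fun l => Sp π ρ S (AA n R) c (d l) g B (W l) (W (l + 1))) (q := q i) (q' := q i')
      (Γ := Gm (AA n R) c r d) (X0 := 2 * R * X) (C := (c : ℝ) + 1) hT.bot (fun l hl => (hT.lv l hl).le) hb
      (hqb i hi) (hqb i' hi') (by positivity) (by positivity) hG
      (by simp only [hq]; exact hle') l (Nat.lt_succ_iff.1 l.2)
    simpa only [hq] using this
  funext l
  have h1 := le_antisymm (key i i' hi hi' h.le l) (key i' i hi' hi h.ge l)
  have hen := hW.en l (Nat.lt_succ_iff.1 l.2)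
  have h2 : ∀ j, p l j ∈ Le (Sp π ρ S (AA n R) c (d l) g B (W l) (W (l + 1))) (md n (d l).j) := by
    intro j
    rw [← hen.rng]
    exact Set.mem_range_self j
  exact hen.mono.injective (le_inj (h2 _) (h2 _) h1)

end Pool.Agent.H10.CO
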