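import Pool.Agent.H75.CO.Shf
import Pool.Agent.H75.CO.Flt

/-!
# [H10 CO She] THEOREM LG, CORE (C2): the shift of the flats

`she` = `sh_eq` of `H75/CO/Sta`: for two towers the flat of the second at `i` is the flat of the first at `i + δ`: `flat_le` in both
directions.
-/

set_option autoImplicit false

namespace Pool.Agent.H10.CO

open Pool.Agent.H75.CO Pool.Agent.H54.TT Pool.Agent.H98.RH Matrix
open scoped Pointwise

variable {K : Type} [Field K] {v : K → ℤ} {hv : IsDV v} {n : ℕ} {π : Kˣ} {G : Type} [Group G]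
  {ρ : G →* GL (Fin n) K} {S : Set G} {R : ℕ}

private theorem per_le' {Φ : ℝ → Lt hv n} (h : Nm π Φ) (c : ℝ) (x : ℝ) : x + 1 ∈ Le Φ c ↔ x ∈ Le Φ c := by
  have := le_add_int h (c := c) (t := x) 1
  simpa using this

/-- a ball which is a little later than a long interval begins -/
private theorem ball_le {Φ : ℝ → Lt hv n} (h : Nm π Φ) {c x t : ℝ} (hx : x ∈ Le Φ c) (ht : t ≤ x + c) : Φ t ≤ Φ x :=
  (h.mono ht).trans (le_of_eq hx.1.symm)

theorem she {c r : ℕ} {d : ℕ → Dat n (NN n)} {g s : G} {B0 B : ℝ → Lt hv n} {W W' : ℕ → Lt hv n}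
    (h : Pt π ρ S R c r d g s B0 B W W') {p p' : ℕ → ℤ → ℝ} {f f' : (Fin (r + 1) → ℤ) → Lt hv n}
    (hf : Wd π ρ S (AA n R) c r d g B0 W p f) (hf' : Wd π ρ S (AA n R) c r d (g * s) B W' p' f') {μ : ℕ → ℝ}
    {δ : ℕ → ℤ} (hδ : ∀ l, l ≤ r → ∀ i, |p' l i - p l (i + δ l) - μ l| ≤ 2 * ep n)
    (hil : ∀ l, l ≤ r → IL2 π (La hv ρ g) (La hv ρ (g * s)) (W l) (W (l + 1)) (W' l) (W' (l + 1))
      (Sp π ρ S (AA n R) c (d l) g B0 (W l) (W (l + 1))) (Sp π ρ S (AA n R) c (d l) (g * s) B (W' l) (W' (l + 1)))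
      R (μ l) (2 * ep n) (2 * R * Ln (AA n R) c ((d r).a + 1)) ((Ln (AA n R) c ((d r).be + 1) : ℝ) / 4 - 2 * R))
    {i : Fin (r + 1) → ℤ} (hi : ∀ l, |i l| ≤ c) (hi' : ∀ l : Fin (r + 1), |i l + δ l| ≤ c) :
    f' i = f (fun l => i l + δ l) := by
  have hπ := h.hs.unif
  have hR0 : (0 : ℝ) ≤ R := Nat.cast_nonneg R
  have hep := ep_pos n
  have hc0 := h.hc
  obtain ⟨Γ, hΓ⟩ : ∃ Γ : ℝ, Γ = Gm (AA n R) c r d := ⟨_, rfl⟩
  obtain ⟨X, hX⟩ : ∃ X : ℝ, X = (Ln (AA n R) c ((d r).a + 1) : ℝ) := ⟨_, rfl⟩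
  obtain ⟨Y, hY⟩ : ∃ Y : ℝ, Y = (Ln (AA n R) c ((d r).be + 1) : ℝ) := ⟨_, rfl⟩
  have hΓ' : Γ = (Ln (AA n R) c ((d r).be - 2) : ℝ) := hΓ
  rw [← hX, ← hY] at hil
  have r1 := h.hd.c1 r le_rfl
  have e1 : (c : ℝ) ≤ X := by rw [hX]; exact Ln_ge n R _
  have e2 : (1 : ℝ) ≤ X := by rw [hX]; exact Ln_one n R hc0 _
  have e3 : 1000000 * X ≤ Γ := by rw [hX, hΓ']; exact Ln_one_lt n R c (by omega)
  have e4 : 1000000 * ((R : ℝ) * X) ≤ Γ := by rw [hX, hΓ']; exact Ln_R_lt n R c (by omega)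
  have e5 : 1000000 * (R : ℝ) ≤ Γ := by rw [hΓ']; exact Ln_R n R hc0 (by omega)
  have e6 : 1000000 * ((n : ℝ) * Γ) ≤ Y := by rw [hY, hΓ']; exact Ln_n_lt n R c (by omega)
  have e7 : 1000000 * Γ ≤ Y := by rw [hY, hΓ']; exact Ln_one_lt n R c (by omega)
  have e8 : ((r : ℝ) + 1) * Γ ≤ n * Γ := by
    refine mul_le_mul_of_nonneg_right ?_ (by linarith)
    have := h.hd.lt
    exact_mod_cast this
  have hC1 : (0 : ℝ) ≤ (c : ℝ) + 1 := by positivity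
  have hX0 : (0 : ℝ) ≤ 2 * R * X := by positivity
  have hG : 2 * (((c : ℝ) + 1) + 2 * R * X + R + 2) ≤ Γ := by linarith
  have hD : ((r : ℝ) + 1) * Γ + ((c : ℝ) + 1) + R + 2 ≤ Y / 4 - 2 * R := by linarith
  -- the positions
  have hen := hf.en
  have hen' := hf'.en
  rw [← hΓ] at hen hen'
  have hmem : ∀ l, l ≤ r → ∀ j, p l j ∈ Le (Sp π ρ S (AA n R) c (d l) g B0 (W l) (W (l + 1))) (md n (d l).j) := by
    intro l hl j
    rw [← (hen l hl).rng]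
    exact Set.mem_range_self j
  have hmem' : ∀ l, l ≤ r → ∀ j,
      p' l j ∈ Le (Sp π ρ S (AA n R) c (d l) (g * s) B (W' l) (W' (l + 1))) (md n (d l).j) := by
    intro l hl j
    rw [← (hen' l hl).rng]
    exact Set.mem_range_self j
  have hpos : ∀ l, l ≤ r → ∀ j : ℤ, |j| ≤ c → |p l j - l * Γ| ≤ (c : ℝ) + 1 := by
    intro l hl j hj
    refine ((hen l hl).pos (per_le' (hil l hl).bk.nm _) j).trans ?_
    have : (|(j : ℝ)| : ℝ) ≤ c := by exact_mod_cast hj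
    linarith
  have hpos' : ∀ l, l ≤ r → ∀ j : ℤ, |j| ≤ c → |p' l j - l * Γ| ≤ (c : ℝ) + 1 := by
    intro l hl j hj
    refine ((hen' l hl).pos (per_le' (hil l hl).bk'.nm _) j).trans ?_
    have : (|(j : ℝ)| : ℝ) ≤ c := by exact_mod_cast hj
    linarith
  let q : ℕ → ℝ := fun l => if hl : l < r + 1 then p l (i ⟨l, hl⟩ + δ l) else l * Γ
  let q' : ℕ → ℝ := fun l => if hl : l < r + 1 then p' l (i ⟨l, hl⟩) else l * Γ
  have hq : ∀ l : Fin (r + 1), q l = p l (i l + δ l) := fun l => by simp only [q]; rw [dif_pos l.2]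
  have hq' : ∀ l : Fin (r + 1), q' l = p' l (i l) := fun l => by simp only [q']; rw [dif_pos l.2]
  have hqb : ∀ l, l ≤ r → |q l - l * Γ| ≤ (c : ℝ) + 1 := by
    intro l hl
    have h1 := hq ⟨l, by omega⟩
    simp only at h1
    rw [h1]
    exact hpos l hl _ (hi' ⟨l, by omega⟩)
  have hqb' : ∀ l, l ≤ r → |q' l - l * Γ| ≤ (c : ℝ) + 1 := by
    intro l hl
    have h1 := hq' ⟨l, by omega⟩
    simp only at h1
    rw [h1]
    exact hpos' l hl _ (hi ⟨l, by omega⟩)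
  have hqq : ∀ l, l ≤ r → |q' l - q l - μ l| ≤ 2 * ep n := by
    intro l hl
    have h1 := hq ⟨l, by omega⟩
    have h2 := hq' ⟨l, by omega⟩
    simp only at h1 h2
    rw [h1, h2]
    exact hδ l hl _
  have hqm : ∀ l, l ≤ r → q l ∈ Le (Sp π ρ S (AA n R) c (d l) g B0 (W l) (W (l + 1))) (md n (d l).j) := by
    intro l hl
    have h1 := hq ⟨l, by omega⟩
    simp only at h1
    rw [h1]
    exact hmem l hl _
  have hqm' : ∀ l, l ≤ r → q' l ∈ Le (Sp π ρ S (AA n R) c (d l) (g * s) B (W' l) (W' (l + 1))) (md n (d l).j) := by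
    intro l hl
    have h1 := hq' ⟨l, by omega⟩
    simp only at h1
    rw [h1]
    exact hmem' l hl _
  have hmd : ∀ l, 1000 * ep n ≤ md n (d l).j := fun l => ep_md (Nat.lt_succ_iff.1 (d l).j.2)
  have hl1 : ∀ l, l ≤ r → Sp π ρ S (AA n R) c (d l) g B0 (W l) (W (l + 1)) (q l) ⊓ bl π (La hv ρ g) (l * Γ + Γ / 2) ≤
      Sp π ρ S (AA n R) c (d l) (g * s) B (W' l) (W' (l + 1)) (q' l) ⊔
        bl π (La hv ρ g) (l * Γ + Γ / 2 - (Y / 4 - 2 * R)) := by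
    intro l hl
    have b1 := abs_le.1 (hqb l hl)
    have b2 := abs_le.1 (hqq l hl)
    have b3 := hmd l
    refine ((hil l hl).il (q l) (l * Γ + Γ / 2) (by linarith)).trans (sup_le_sup_right ?_ _)
    exact ball_le (hil l hl).bk'.nm (hqm' l hl) (by linarith)
  have hl2 : ∀ l, l ≤ r → Sp π ρ S (AA n R) c (d l) (g * s) B (W' l) (W' (l + 1)) (q' l) ⊓
      bl π (La hv ρ (g * s)) (l * Γ + Γ / 2) ≤
      Sp π ρ S (AA n R) c (d l) g B0 (W l) (W (l + 1)) (q l) ⊔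
        bl π (La hv ρ (g * s)) (l * Γ + Γ / 2 - (Y / 4 - 2 * R)) := by
    intro l hl
    have b1 := abs_le.1 (hqb' l hl)
    have b2 := abs_le.1 (hqq l hl)
    have b3 := hmd l
    refine ((hil l hl).il' (q' l) (l * Γ + Γ / 2) (by linarith)).trans (sup_le_sup_right ?_ _)
    exact ball_le (hil l hl).bk.nm (hqm l hl) (by linarith)
  have f1 := flat_le (π := π) hπ (r := r) (M := La hv ρ g) (M' := La hv ρ (g * s)) (R := R) (hil 0 (Nat.zero_le r)).hM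
    (W' := W') (Φ := fun l => Sp π ρ S (AA n R) c (d l) g B0 (W l) (W (l + 1)))
    (Φ' := fun l => Sp π ρ S (AA n R) c (d l) (g * s) B (W' l) (W' (l + 1))) (q := q) (q' := q') (Γ := Γ)
    (D := Y / 4 - 2 * R) (X0 := 2 * R * X) (C := (c : ℝ) + 1) h.tw'.top h.tw'.bot (fun l hl => (hil l hl).bk') hqb' hl1
    hX0 hC1 hG hD
  have f2 := flat_le (π := π) hπ (r := r) (M := La hv ρ (g * s)) (M' := La hv ρ g) (R := R) (hil 0 (Nat.zero_le r)).hM'
    (W' := W) (Φ := fun l => Sp π ρ S (AA n R) c (d l) (g * s) B (W' l) (W' (l + 1)))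
    (Φ' := fun l => Sp π ρ S (AA n R) c (d l) g B0 (W l) (W (l + 1))) (q := q') (q' := q) (Γ := Γ)
    (D := Y / 4 - 2 * R) (X0 := 2 * R * X) (C := (c : ℝ) + 1) h.tw.top h.tw.bot (fun l hl => (hil l hl).bk) hqb hl2
    hX0 hC1 hG hD
  rw [hf.eq, hf'.eq, ← hΓ]
  simp only [hq, hq'] at f1 f2
  exact le_antisymm f2 f1

end Pool.Agent.H10.CO
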